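import Pool.Agent.H.MP_9a58dc_co.Defs

set_option autoImplicit false

namespace Pool.Agent.H.MP_9a58dc_co

open Finset
open Classical

theorem greedy {α β : Type} (X : Finset α) (C : Finset β) (hC : C.Nonempty) (K : β → α → Prop)
    (p : ℝ) (hp : p ≤ 1) (h : ∀ x ∈ X, p * C.card ≤ (C.filter (fun c => K c x)).card) :
    ∀ t : ℕ, ∃ f : ℕ → β, (∀ j, f j ∈ C) ∧
      ((X.filter (fun x => ∀ j < t, ¬ K (f j) x)).card : ℝ) ≤ X.card * (1 - p) ^ t := by
  intro t
  induction t with
  | zero => exact ⟨fun _ => hC.choose, fun _ => hC.choose_spec, by simp⟩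
  | succ t ih =>
    obtain ⟨f, hf, hc⟩ := ih
    set U := X.filter (fun x => ∀ j < t, ¬ K (f j) x) with hU
    have hsum : ∑ _c ∈ C, p * U.card ≤ ∑ c ∈ C, ((U.filter (fun x => K c x)).card : ℝ) := by
      have e : ∑ c ∈ C, (U.filter (fun x => K c x)).card =
          ∑ x ∈ U, (C.filter (fun c => K c x)).card := by
        simp only [card_filter]; exact sum_comm
      rw [← Nat.cast_sum, e, Nat.cast_sum]
      have : ∑ _x ∈ U, p * C.card ≤ ∑ x ∈ U, ((C.filter (fun c => K c x)).card : ℝ) :=
        sum_le_sum fun x hx => h x (mem_filter.1 hx).1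
      simp only [sum_const, nsmul_eq_mul] at this ⊢
      linarith
    obtain ⟨c, hcC, hcU⟩ := exists_le_of_sum_le hC hsum
    refine ⟨Function.update f t c, fun j => ?_, ?_⟩
    · by_cases hj : j = t
      · subst hj; simpa using hcC
      · rw [Function.update_of_ne hj]; exact hf j
    · have e : X.filter (fun x => ∀ j < t + 1, ¬ K (Function.update f t c j) x) =
          U.filter (fun x => ¬ K c x) := by
        ext x
        simp only [hU, mem_filter]
        constructor
        · rintro ⟨hx, H⟩
          refine ⟨⟨hx, fun j hj => ?_⟩, by simpa using H t (by omega)⟩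
          have := H j (by omega)
          rwa [Function.update_of_ne (by omega)] at this
        · rintro ⟨⟨hx, H⟩, H'⟩
          refine ⟨hx, fun j hj => ?_⟩
          by_cases hjt : j = t
          · subst hjt; simpa using H'
          · rw [Function.update_of_ne hjt]; exact H j (by omega)
      rw [e]
      have h1 := card_filter_add_card_filter_not (s := U) (fun x => K c x)
      have h2 : ((U.filter (fun x => K c x)).card : ℝ) + (U.filter (fun x => ¬ K c x)).card =
          U.card := by exact_mod_cast h1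
      have h3 := mul_le_mul_of_nonneg_right hc (sub_nonneg.2 hp)
      rw [pow_succ]
      linarith

theorem gam_le {V : Type} {A : V → V → Prop} {S : Finset V} (h : Dom A S) : gam A ≤ S.card :=
  Nat.sInf_le ⟨S, h, rfl⟩

theorem gam_spec {V : Type} [Fintype V] (A : V → V → Prop) :
    ∃ S : Finset V, Dom A S ∧ S.card = gam A :=
  Nat.sInf_mem (s := {n | ∃ S : Finset V, Dom A S ∧ S.card = n})
    ⟨_, univ, fun v hv => absurd (mem_univ v) hv, rfl⟩

theorem closed_card {V : Type} [Fintype V] (P : V → Prop) (v : V) (hv : ¬ P v) {r : ℕ}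
    (h : {w | P w}.ncard = r) : (univ.filter (fun w => w = v ∨ P w)).card = r + 1 := by
  have e : univ.filter (fun w => w = v ∨ P w) = insert v (univ.filter P) := by
    ext w; simp
  rw [e, card_insert_of_notMem (by simpa using hv), ← h, ← Set.ncard_coe_finset]
  simp

theorem gam_lower {V : Type} [Fintype V] (A : V → V → Prop) {r : ℕ} (hi : ∀ v, ¬ A v v)
    (ho : ∀ v, {w | A v w}.ncard = r) : Fintype.card V ≤ gam A * (r + 1) := by
  obtain ⟨S, hS, he⟩ := gam_spec A
  have : (univ : Finset V) ⊆ S.biUnion (fun u => univ.filter (fun w => w = u ∨ A u w)) := by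
    intro v _
    by_cases hv : v ∈ S
    · exact mem_biUnion.2 ⟨v, hv, by simp⟩
    · obtain ⟨u, hu, huv⟩ := hS v hv
      exact mem_biUnion.2 ⟨u, hu, by simp [huv]⟩
  refine (card_le_card this).trans (card_biUnion_le.trans ?_)
  rw [sum_congr rfl (fun u _ => closed_card (A u) u (hi u) (ho u))]
  simp [he]

theorem gam_upper {V : Type} [Fintype V] [Nonempty V] (A : V → V → Prop) {r : ℕ}
    (hi : ∀ v, ¬ A v v) (hin : ∀ v, {u | A u v}.ncard = r) :
    (gam A : ℝ) ≤ Fintype.card V / (r + 1) * (Real.log (r + 1) + 1) + 1 := by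
  set n : ℝ := (Fintype.card V : ℝ) with hn
  have hn0 : 0 < n := by rw [hn]; exact_mod_cast Fintype.card_pos
  set k : ℝ := (r : ℝ) + 1 with hk
  have hk0 : 1 ≤ k := by rw [hk]; linarith [Nat.cast_nonneg (α := ℝ) r]
  have hc : ∀ v, (univ.filter (fun u => u = v ∨ A u v)).card = r + 1 :=
    fun v => closed_card (fun u => A u v) v (hi v) (hin v)
  have hkn : k ≤ n := by
    obtain ⟨v⟩ := ‹Nonempty V›
    have := card_le_univ (univ.filter (fun u => u = v ∨ A u v))
    rw [hc v] at this
    rw [hk, hn]; exact_mod_cast this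
  have hp : k / n ≤ 1 := by rwa [div_le_one hn0]
  have hl : 0 ≤ Real.log k := Real.log_nonneg hk0
  set t := ⌈n / k * Real.log k⌉₊ with ht
  obtain ⟨f, -, hf⟩ := greedy (univ : Finset V) (univ : Finset V) univ_nonempty
    (fun u v => u = v ∨ A u v) (k / n) hp (fun v _ => by
      rw [card_univ, ← hn, div_mul_cancel₀ _ hn0.ne', hk]
      have : (r : ℝ) + 1 = (univ.filter (fun u => u = v ∨ A u v)).card := by
        rw [hc v]; push_cast; rfl
      rw [this]; apply le_of_eq; congr) t
  set U := univ.filter (fun x => ∀ j < t, ¬ (f j = x ∨ A (f j) x)) with hU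
  have hD : Dom A ((range t).image f ∪ U) := by
    intro v hv
    rw [mem_union, not_or] at hv
    have h2 := hv.2
    simp only [hU, mem_filter, mem_univ, true_and, not_forall, not_not] at h2
    obtain ⟨j, hj, h3 | h3⟩ := h2
    · exact absurd (mem_image.2 ⟨j, mem_range.2 hj, h3⟩) hv.1
    · exact ⟨f j, mem_union_left _ (mem_image.2 ⟨j, mem_range.2 hj, rfl⟩), h3⟩
  have h1 : gam A ≤ t + U.card := by
    refine (gam_le hD).trans ((card_union_le _ _).trans ?_)
    have := card_image_le (s := range t) (f := f)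
    rw [card_range] at this
    omega
  have h2 : (gam A : ℝ) ≤ t + U.card := by exact_mod_cast h1
  have h3 : (t : ℝ) ≤ n / k * Real.log k + 1 := (Nat.ceil_lt_add_one (by positivity)).le
  have h4 : n / k * Real.log k ≤ t := Nat.le_ceil _
  have h5 : (1 - k / n) ^ t ≤ 1 / k := by
    have a1 : (1 - k / n) ^ t ≤ Real.exp (-(k / n)) ^ t :=
      pow_le_pow_left₀ (by linarith) (by have := Real.add_one_le_exp (-(k / n)); linarith) t
    refine a1.trans ?_
    rw [← Real.exp_nat_mul, one_div, ← Real.exp_log (by linarith : 0 < k), ← Real.exp_neg]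
    apply Real.exp_le_exp.2
    have a2 := mul_le_mul_of_nonneg_right h4 (by positivity : 0 ≤ k / n)
    have a3 : n / k * Real.log k * (k / n) = Real.log k := by field_simp
    rw [Real.exp_log (by linarith : 0 < k)]
    linarith
  rw [card_univ, ← hn] at hf
  have hf' : (U.card : ℝ) ≤ n * (1 - k / n) ^ t := by convert hf
  have h6 := mul_le_mul_of_nonneg_left h5 hn0.le
  have h7 : n * (1 / k) = n / k := by ring
  linarith

theorem ratio_le {r : ℕ} {x : ℝ} (hx : x ∈ ratios r) : x ≤ Real.log (r + 1) + 2 := by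
  obtain ⟨V, _, _, A, ⟨hi, ho, -, -⟩, rfl⟩ := hx
  have h1 := gam_lower A hi ho
  have h2 := gam_upper (fun u v => A v u) hi ho
  have hg : 0 < gam A := by
    rcases Nat.eq_zero_or_pos (gam A) with h | h
    · rw [h] at h1; have := Fintype.card_pos (α := V); omega
    · exact h
  have hg' : (1 : ℝ) ≤ gam A := by exact_mod_cast hg
  have hl : 0 ≤ Real.log ((r : ℝ) + 1) :=
    Real.log_nonneg (by linarith [Nat.cast_nonneg (α := ℝ) r])
  have h3 : (Fintype.card V : ℝ) / (r + 1) ≤ gam A := by
    rw [div_le_iff₀ (by positivity)]; exact_mod_cast h1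
  have h4 := mul_le_mul_of_nonneg_right h3 (by linarith : 0 ≤ Real.log ((r : ℝ) + 1) + 1)
  rw [div_le_iff₀ (by linarith)]
  linarith

theorem back_closed {V : Type} [Fintype V] (A : V → V → Prop) {r : ℕ}
    (ho : ∀ v, {w | A v w}.ncard = r) (hin : ∀ v, {u | A u v}.ncard = r) (R : V → Prop)
    (hR : ∀ u v, R u → A u v → R v) (u v : V) (hv : R v) (huv : A u v) : R u := by
  have ho' : ∀ v, (univ.filter (fun w => A v w)).card = r := fun v => by
    rw [← ho v, ← Set.ncard_coe_finset]; simp
  have hin' : ∀ v, (univ.filter (fun w => A w v)).card = r := fun v => by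
    rw [← hin v, ← Set.ncard_coe_finset]; simp
  set S := univ.filter R with hS
  have e1 : ∑ u ∈ S, (S.filter (fun w => A u w)).card = ∑ _u ∈ S, r := by
    apply sum_congr rfl
    intro u hu
    rw [← ho' u]
    congr 1
    ext w
    simp only [hS, mem_filter, mem_univ, true_and] at hu ⊢
    exact ⟨fun h => h.2, fun h => ⟨hR u w hu h, h⟩⟩
  have e2 : ∑ u ∈ S, (S.filter (fun w => A u w)).card =
      ∑ w ∈ S, (S.filter (fun u => A u w)).card := by
    simp only [card_filter]; exact sum_comm
  by_contra hu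
  have : ∑ w ∈ S, (S.filter (fun u => A u w)).card < ∑ _u ∈ S, r := by
    apply sum_lt_sum
    · intro w _
      rw [← hin' w]
      exact card_le_card (filter_subset_filter _ (subset_univ _))
    · refine ⟨v, by simp [hS, hv], ?_⟩
      rw [← hin' v]
      apply card_lt_card
      refine ⟨filter_subset_filter _ (subset_univ _), fun h => ?_⟩
      have := h (mem_filter.2 ⟨mem_univ u, huv⟩)
      simp [hS, hu] at this
  omega

theorem build {V E : Type} [Fintype V] [Fintype E] (I : E → V → Prop) (r : ℕ)
    (hE : ∀ e, (univ.filter (fun v => I e v)).card = r + 1)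
    (hV : ∀ v, (univ.filter (fun e => I e v)).card = r + 1)
    (hc : Fintype.card V = Fintype.card E) :
    ∃ (A : V → V → Prop) (own : E → V), (∀ v, ¬ A v v) ∧ (∀ v, {w | A v w}.ncard = r) ∧
      (∀ v, {u | A u v}.ncard = r) ∧ ∀ e v, I e v ↔ (v = own e ∨ A (own e) v) := by
  obtain ⟨φ, hφ, hI⟩ := (all_card_le_biUnion_card_iff_exists_injective
    (fun v => univ.filter (fun e => I e v))).1 (fun U => by
      apply Nat.le_of_mul_le_mul_right _ (Nat.succ_pos r)
      apply card_mul_le_card_mul (fun v e => I e v)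
      · intro v hv
        rw [Nat.succ_eq_add_one, ← hV v]
        apply card_le_card
        intro e he
        simp only [mem_bipartiteAbove, mem_biUnion]
        exact ⟨⟨v, hv, he⟩, (mem_filter.1 he).2⟩
      · intro e _
        rw [Nat.succ_eq_add_one, ← hE e]
        apply card_le_card
        intro v hv
        simp only [mem_bipartiteBelow] at hv
        simp [hv.2])
  have hI' : ∀ v, I (φ v) v := fun v => (mem_filter.1 (hI v)).2
  let ψ := Equiv.ofBijective φ ((Fintype.bijective_iff_injective_and_card φ).2 ⟨hφ, hc⟩)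
  have hψ : ∀ e, φ (ψ.symm e) = e := fun e => ψ.apply_symm_apply e
  refine ⟨fun u v => v ≠ u ∧ I (φ u) v, ψ.symm, fun v h => h.1 rfl, fun v => ?_, fun v => ?_,
    fun e v => ?_⟩
  · have : {w | w ≠ v ∧ I (φ v) w} = ↑((univ.filter (fun w => I (φ v) w)).erase v) := by
      ext w; simp [and_comm]
    rw [this, Set.ncard_coe_finset, card_erase_of_mem (by simp [hI' v]), hE]; rfl
  · have : {u | v ≠ u ∧ I (φ u) v} =
        ↑(((univ.filter (fun e => I e v)).map ψ.symm.toEmbedding).erase v) := by
      ext u
      simp only [Set.mem_setOf_eq, coe_erase, Set.mem_diff, mem_coe, mem_map_equiv, mem_filter,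
        mem_univ, true_and, Equiv.symm_symm, Set.mem_singleton_iff]
      exact ⟨fun h => ⟨h.2, fun h' => h.1 h'.symm⟩, fun h => ⟨fun h' => h.2 h'.symm, h.1⟩⟩
    rw [this, Set.ncard_coe_finset, card_erase_of_mem, card_map, hV]
    · rfl
    · simp only [mem_map_equiv, mem_filter, mem_univ, true_and, Equiv.symm_symm]
      exact hI' v
  · simp only [hψ]
    constructor
    · intro h
      by_cases hv : v = ψ.symm e
      · exact Or.inl hv
      · exact Or.inr ⟨hv, h⟩
    · rintro (rfl | h)
      · have := hI' (ψ.symm e); rwa [hψ] at this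
      · exact h.2

end Pool.Agent.H.MP_9a58dc_co
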