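import Pool.Agent.H.MP_9a58dc_co.A

set_option autoImplicit false

namespace Pool.Agent.H.MP_9a58dc_co

open Finset
open Classical

theorem choose_ratio {n k s : ℕ} (h : s + k ≤ n) (hs : s < n) : ∀ t ≤ s,
    (1 - (k : ℝ) / ((n : ℝ) - s)) ^ t * n.choose k ≤ (n - t).choose k := by
  have hns : (0 : ℝ) < (n : ℝ) - s := by
    have : (s : ℝ) < n := by exact_mod_cast hs
    linarith
  have ha : 0 ≤ 1 - (k : ℝ) / ((n : ℝ) - s) := by
    have : (s : ℝ) + k ≤ n := by exact_mod_cast h
    rw [sub_nonneg, div_le_one hns]; linarith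
  intro t
  induction t with
  | zero => simp
  | succ t ih =>
    intro ht
    have h1 := ih (by omega)
    obtain ⟨N, hN⟩ : ∃ N, n - t = N + 1 := ⟨n - t - 1, by omega⟩
    have hN' : n - (t + 1) = N := by omega
    rw [hN] at h1
    rw [hN']
    have h2 : (N.choose k : ℝ) * (N + 1) = (N + 1).choose k * ((N + 1 : ℝ) - k) := by
      have := Nat.choose_mul_succ_eq N k
      have h3 : ((N + 1 - k : ℕ) : ℝ) = (N + 1 : ℝ) - k := by
        rw [Nat.cast_sub (by omega)]; push_cast; ring
      rw [← h3]; exact_mod_cast this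
    have h4 : (n : ℝ) - s ≤ N + 1 := by
      have : n ≤ N + 1 + s := by omega
      have : (n : ℝ) ≤ N + 1 + s := by exact_mod_cast this
      linarith
    have h5 : (k : ℝ) / (N + 1) ≤ k / ((n : ℝ) - s) :=
      div_le_div_of_nonneg_left (by positivity) hns h4
    have h6 : (N.choose k : ℝ) = (N + 1).choose k * (1 - k / (N + 1)) := by
      field_simp; linarith
    rw [h6, pow_succ]
    have h7 := mul_le_mul_of_nonneg_right h1 ha
    have h8 := mul_le_mul_of_nonneg_left (by linarith : 1 - (k : ℝ) / ((n : ℝ) - s) ≤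
      1 - (k : ℝ) / (N + 1)) (Nat.cast_nonneg (α := ℝ) ((N + 1).choose k))
    linarith

theorem family {V : Type} [Fintype V] {k s t : ℕ} (h : s + k ≤ Fintype.card V)
    (hs : s < Fintype.card V)
    (hb : ((Fintype.card V).choose s : ℝ) *
      (1 - (1 - (k : ℝ) / ((Fintype.card V : ℝ) - s)) ^ s) ^ t < 1) :
    ∃ f : ℕ → Finset V, (∀ j, (f j).card = k) ∧
      ∀ S : Finset V, S.card ≤ s → ∃ j < t, Disjoint (f j) S := by
  have hns : (0 : ℝ) < (Fintype.card V : ℝ) - s := by
    have : (s : ℝ) < Fintype.card V := by exact_mod_cast hs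
    linarith
  have ha : 0 ≤ 1 - (k : ℝ) / ((Fintype.card V : ℝ) - s) := by
    have : (s : ℝ) + k ≤ Fintype.card V := by exact_mod_cast h
    rw [sub_nonneg, div_le_one hns]; linarith
  have ha1 : 1 - (k : ℝ) / ((Fintype.card V : ℝ) - s) ≤ 1 := by
    have : 0 ≤ (k : ℝ) / ((Fintype.card V : ℝ) - s) := by positivity
    linarith
  obtain ⟨f, hf, hc⟩ := greedy (powersetCard s (univ : Finset V)) (powersetCard k univ)
    (powersetCard_nonempty.2 (by rw [card_univ]; omega)) (fun A S => Disjoint A S) _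
    (pow_le_one₀ (n := s) ha ha1) (fun S hS => by
      have hS' := (mem_powersetCard.1 hS).2
      rw [card_powersetCard, card_univ]
      refine (choose_ratio h hs s le_rfl).trans ?_
      have : (Fintype.card V - s).choose k = (powersetCard k (univ \ S)).card := by
        rw [card_powersetCard, card_univ_diff, hS']
      rw [this, Nat.cast_le]
      apply card_le_card
      intro A hA
      rw [mem_powersetCard] at hA
      simp only [mem_filter, mem_powersetCard, subset_univ, true_and]
      exact ⟨hA.2, disjoint_of_subset_left hA.1 sdiff_disjoint⟩) t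
  refine ⟨f, fun j => (mem_powersetCard.1 (hf j)).2, fun S hS => ?_⟩
  rw [card_powersetCard, card_univ] at hc
  have h0 := hc.trans_lt hb
  have h1 := Nat.lt_one_iff.1 (by exact_mod_cast h0)
  rw [card_eq_zero] at h1
  obtain ⟨T, hST, -, hT⟩ := exists_subsuperset_card_eq (subset_univ S) hS
    (by rw [card_univ]; omega : s ≤ (univ : Finset V).card)
  by_contra hn
  have := eq_empty_iff_forall_notMem.1 h1 T
  simp only [mem_filter, mem_powersetCard, subset_univ, true_and, hT, not_forall, not_not] at this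
  obtain ⟨j, hj, hd⟩ := this
  exact hn ⟨j, hj, disjoint_of_subset_right hST hd⟩

theorem construct {m r s : ℕ} (hm : 1 ≤ m) (hr : 1 ≤ r) (hmr : m ≤ r + 1)
    (f : ℕ → Finset (Fin m × Fin (r + 1))) (hf : ∀ j, (f j).card = r + 1)
    (hS : ∀ S : Finset (Fin m × Fin (r + 1)), S.card ≤ s → ∃ j < r - 1, Disjoint (f j) S) :
    ∃ x ∈ ratios r, ((s : ℝ) + 1) / m ≤ x := by
  haveI : NeZero m := ⟨by omega⟩
  let row : Fin m → Finset (Fin m × Fin (r + 1)) := fun i => {i} ×ˢ univ
  have hrow : ∀ i, (row i).card = r + 1 := fun i => by simp [row]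
  have mrow : ∀ i v, v ∈ row i ↔ v.1 = i := fun i v => by
    simp only [row, mem_product, mem_singleton, mem_univ, and_true]
  let dg : Fin (r + 1) → Fin m × Fin (r + 1) := fun c => (⟨c % m, Nat.mod_lt _ hm⟩, c)
  have hdg : Function.Injective dg := fun a b h => congrArg Prod.snd h
  let G : Fin (r + 1) → Finset (Fin m × Fin (r + 1)) := fun j =>
    if (j : ℕ) = 0 then row 0 else if (j : ℕ) = 1 then univ.image dg else f (j - 2)
  have hG : ∀ j : Fin (r + 1), ∃ σ : Equiv.Perm (Fin m × Fin (r + 1)),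
      (∀ v, (σ v).1 = 0 ↔ v ∈ G j) ∧ ((j : ℕ) = 0 → σ = 1) := by
    intro j
    by_cases hj : (j : ℕ) = 0
    · exact ⟨1, fun v => by simp only [G, if_pos hj, mrow]; rfl, fun _ => rfl⟩
    · have hc : (G j).card = (row 0).card := by
        rw [hrow]
        simp only [G, if_neg hj]
        split_ifs
        · rw [card_image_of_injective _ hdg]; simp
        · exact hf _
      obtain ⟨σ, hσ⟩ := Equiv.Perm.exists_map_finset_eq _ _ hc
      refine ⟨σ, fun v => ?_, fun h => absurd h hj⟩
      rw [← mrow, ← hσ]; simp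
  choose σ hσ hσ0 using hG
  obtain ⟨A, own, hi, ho, hin, hI⟩ := build (V := Fin m × Fin (r + 1)) (E := Fin (r + 1) × Fin m)
    (fun e v => (σ e.1 v).1 = e.2) r (fun e => by
      refine Eq.trans ?_ ((card_map (σ e.1).symm.toEmbedding).trans (hrow e.2))
      congr 1
      ext v
      simp [mrow]) (fun v => by
      have : (univ.image (fun j : Fin (r + 1) => (j, (σ j v).1))).card = r + 1 := by
        rw [card_image_of_injective _ (fun a b h => congrArg Prod.fst h)]; simp
      refine Eq.trans ?_ this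
      congr 1
      ext ⟨j, i⟩
      simp) (by simp [mul_comm])
  have z0 : ∀ (i : Fin m) v, (σ 0 v).1 = i ↔ v.1 = i := fun i v => by rw [hσ0 0 rfl]; simp
  have hstrong : ∀ u v, Relation.ReflTransGen A u v := by
    intro u
    have hR : ∀ a b, Relation.ReflTransGen A u a → A a b → Relation.ReflTransGen A u b :=
      fun a b h1 h2 => h1.tail h2
    have blk : ∀ (e : Fin (r + 1) × Fin m) a b, (σ e.1 a).1 = e.2 → (σ e.1 b).1 = e.2 →
        Relation.ReflTransGen A u a → Relation.ReflTransGen A u b := by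
      intro e a b ha hb h
      have h1 : Relation.ReflTransGen A u (own e) := by
        rcases (hI e a).1 ha with h2 | h2
        · rwa [← h2]
        · exact back_closed A ho hin _ hR _ _ h h2
      rcases (hI e b).1 hb with h2 | h2
      · rwa [h2]
      · exact h1.tail h2
    let one : Fin (r + 1) := ⟨1, by omega⟩
    let d : Fin m → Fin m × Fin (r + 1) := fun i => dg ⟨i, by omega⟩
    have hd1 : ∀ i, (d i).1 = i := fun i => Fin.ext (Nat.mod_eq_of_lt i.2)
    have hd2 : ∀ i, (σ one (d i)).1 = 0 := fun i => by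
      rw [hσ]; simp [G, one, d]
    intro v
    have a1 := blk (0, u.1) u (d u.1) ((z0 _ _).2 rfl) ((z0 _ _).2 (hd1 _)) .refl
    have a2 := blk (one, 0) (d u.1) (d v.1) (hd2 _) (hd2 _) a1
    exact blk (0, v.1) (d v.1) v ((z0 _ _).2 (hd1 _)) ((z0 _ _).2 rfl) a2
  refine ⟨_, ⟨Fin m × Fin (r + 1), inferInstance, inferInstance, A, ⟨hi, ho, hin, hstrong⟩, rfl⟩, ?_⟩
  have g1 : gam A ≤ m := by
    have hD : Dom A (univ.image (fun i : Fin m => own (0, i))) := by
      intro v hv
      rcases (hI (0, v.1) v).1 ((z0 _ _).2 rfl) with h | h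
      · exact absurd (mem_image.2 ⟨v.1, mem_univ _, h.symm⟩) hv
      · exact ⟨_, mem_image.2 ⟨v.1, mem_univ _, rfl⟩, h⟩
    exact (gam_le hD).trans (card_image_le.trans (by simp))
  have g0 : 0 < gam A := by
    have h1 := gam_lower A hi ho
    rcases Nat.eq_zero_or_pos (gam A) with h | h
    · rw [h] at h1; have := Fintype.card_pos (α := Fin m × Fin (r + 1)); omega
    · exact h
  have g2 : s + 1 ≤ gam (fun u v => A v u) := by
    obtain ⟨S, hD, he⟩ := gam_spec (fun u v => A v u)
    by_contra hlt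
    obtain ⟨j, hj, hd⟩ := hS S (by omega)
    let j' : Fin (r + 1) := ⟨j + 2, by omega⟩
    have hGj : G j' = f j := by simp [G, j']
    have key : ∀ v, (v = own (j', 0) ∨ A (own (j', 0)) v) → v ∉ S := fun v hv =>
      disjoint_left.1 hd (by rw [← hGj, ← hσ]; exact (hI (j', 0) v).2 hv)
    obtain ⟨w, hw, hA⟩ := hD _ (key _ (Or.inl rfl))
    exact key w (Or.inr hA) hw
  have g0' : (0 : ℝ) < gam A := by exact_mod_cast g0
  apply div_le_div₀ (by positivity) (by exact_mod_cast g2) g0' (by exact_mod_cast g1)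

end Pool.Agent.H.MP_9a58dc_co
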