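import Pool.Agent.H.MP_9a58dc_co.B

set_option autoImplicit false

namespace Pool.Agent.H.MP_9a58dc_co

open Finset Filter Topology

theorem numer {m r s : ℕ} {ε x : ℝ} (hε : 0 < ε) (hε1 : ε < 1) (hm : 4 / ε ≤ m) (hr : 3 ≤ r)
    (hmr : m ≤ r + 1) (hx : x = Real.log ((r : ℝ) + 1)) (hx1 : 1 ≤ x)
    (hE : 4 * m * x ^ 2 < Real.exp (ε * x / 2)) (hs : (s : ℝ) ≤ (1 - ε) * m * x) :
    s < r + 1 ∧ ((m * (r + 1)).choose s : ℝ) *
      (1 - (1 - ((r + 1 : ℕ) : ℝ) / (((m * (r + 1) : ℕ) : ℝ) - s)) ^ s) ^ (r - 1) < 1 := by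
  set K : ℝ := (r : ℝ) + 1 with hK
  have hr' : (3 : ℝ) ≤ r := by exact_mod_cast hr
  have hK0 : 0 < K := by linarith
  have hKx : Real.exp x = K := by rw [hx, Real.exp_log hK0]
  have hmε : 4 ≤ m * ε := by rwa [div_le_iff₀ hε] at hm
  have hm0 : (0 : ℝ) ≤ m := Nat.cast_nonneg m
  have hm4 : (4 : ℝ) ≤ m := by nlinarith
  have hsm : (s : ℝ) ≤ m * x := by
    have : 0 ≤ ε * m * x := by positivity
    linarith
  have hsK : (s : ℝ) < K := by
    have h1 : Real.exp (ε * x / 2) ≤ Real.exp x := Real.exp_le_exp.2 (by nlinarith)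
    have h2 : m * x ≤ 4 * m * x ^ 2 := by
      have : x ≤ 4 * x ^ 2 := by nlinarith
      nlinarith
    linarith
  refine ⟨by rw [hK] at hsK; exact_mod_cast hsK, ?_⟩
  have e1 : ((r + 1 : ℕ) : ℝ) = K := by push_cast; rfl
  have e2 : ((m * (r + 1) : ℕ) : ℝ) = m * K := by push_cast; rfl
  rw [e1, e2]
  have hden : (m - 1) * K ≤ m * K - s := by linarith
  have h1 : K / (m * K - s) ≤ 1 / (m - 1) := by
    have hp : 0 < (m - 1 : ℝ) * K := mul_pos (by linarith) hK0
    rw [div_le_div_iff₀ (by linarith) (by linarith)]; linarith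
  have h1' : 0 ≤ K / (m * K - s) := by
    have hp : 0 < (m - 1 : ℝ) * K := mul_pos (by linarith) hK0
    exact div_nonneg hK0.le (by linarith)
  have h2 : Real.exp (-(1 / (m - 2))) ≤ 1 - K / (m * K - s) := by
    have a1 := Real.add_one_le_exp (1 / ((m : ℝ) - 2))
    have a0 : (0 : ℝ) < m - 2 := by linarith
    have a0' : (0 : ℝ) < m - 1 := by linarith
    have a2 : Real.exp (-(1 / (m - 2))) ≤ 1 - 1 / (m - 1) := by
      rw [Real.exp_neg, inv_le_comm₀ (Real.exp_pos _) (by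
        rw [sub_pos, div_lt_one a0']; linarith)]
      refine le_trans (le_of_eq ?_) a1
      have : (1 : ℝ) - 1 / (m - 1) = (m - 2) / (m - 1) := by field_simp; ring
      rw [this]; field_simp; ring
    linarith
  set a := 1 - K / (m * K - s) with ha
  have h3 : Real.exp (-((1 - ε / 2) * x)) ≤ a ^ s := by
    refine le_trans ?_ (pow_le_pow_left₀ (Real.exp_pos _).le h2 s)
    rw [← Real.exp_nat_mul]
    apply Real.exp_le_exp.2
    have a0 : (0 : ℝ) < m - 2 := by linarith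
    have : s * (1 / ((m : ℝ) - 2)) ≤ (1 - ε / 2) * x := by
      rw [mul_one_div, div_le_iff₀ a0]
      have : (1 - ε) * m ≤ (1 - ε / 2) * (m - 2) := by linarith
      have := mul_le_mul_of_nonneg_right this (by linarith : 0 ≤ x)
      linarith
    linarith
  have h4 : a ^ s ≤ 1 := pow_le_one₀ ((Real.exp_pos _).le.trans h2) (by linarith)
  set p := a ^ s with hp
  have h5 : (1 - p) ^ (r - 1) ≤ Real.exp (-(Real.exp (ε * x / 2) / 2)) := by
    refine (pow_le_pow_left₀ (by linarith)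
      (by have := Real.add_one_le_exp (-p); linarith : 1 - p ≤ Real.exp (-p)) _).trans ?_
    rw [← Real.exp_nat_mul]
    apply Real.exp_le_exp.2
    have a1 : ((r - 1 : ℕ) : ℝ) = r - 1 := by rw [Nat.cast_sub (by omega)]; simp
    have a2 : Real.exp (ε * x / 2) = K * Real.exp (-((1 - ε / 2) * x)) := by
      rw [← hKx, ← Real.exp_add]; congr 1; ring
    have a3 : K / 2 * Real.exp (-((1 - ε / 2) * x)) ≤ (r - 1) * p :=
      mul_le_mul (by linarith) h3 (Real.exp_pos _).le (by linarith)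
    rw [a1, a2]; linarith
  have h6 : ((m * (r + 1)).choose s : ℝ) ≤ Real.exp (2 * m * x ^ 2) := by
    have a1 : ((m * (r + 1)).choose s : ℝ) ≤ (m * K) ^ s := by
      rw [← e2]; exact_mod_cast Nat.choose_le_pow _ _
    have a2 : (m : ℝ) ≤ K := by rw [← e1]; exact_mod_cast hmr
    have a3 : m * K ≤ Real.exp (2 * x) := by
      rw [two_mul, Real.exp_add, hKx]; exact mul_le_mul_of_nonneg_right a2 hK0.le
    refine a1.trans ((pow_le_pow_left₀ (by positivity) a3 s).trans ?_)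
    rw [← Real.exp_nat_mul]
    apply Real.exp_le_exp.2
    have := mul_le_mul_of_nonneg_right hsm (by linarith : 0 ≤ 2 * x)
    linarith
  refine (mul_le_mul h6 h5 (pow_nonneg (by linarith) _) (Real.exp_pos _).le).trans_lt ?_
  rw [← Real.exp_add, Real.exp_lt_one_iff]
  linarith

theorem lower {ε : ℝ} (hε : 0 < ε) (hε1 : ε < 1) :
    ∀ᶠ r : ℕ in atTop, ∃ y ∈ ratios r, (1 - ε) * Real.log r ≤ y := by
  set m := ⌈4 / ε⌉₊ with hm
  have hm1 : 4 / ε ≤ m := Nat.le_ceil _
  have hm0 : (0 : ℝ) < m := lt_of_lt_of_le (by positivity) hm1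
  have hm' : 1 ≤ m := by exact_mod_cast hm0
  have hm2 : 2 ≤ m := by
    have : (4 : ℝ) ≤ 4 / ε := by rw [le_div_iff₀ hε]; linarith
    have : (2 : ℝ) ≤ m := by linarith
    exact_mod_cast this
  have hl : Tendsto (fun r : ℕ => Real.log ((r : ℝ) + 1)) atTop atTop :=
    Real.tendsto_log_atTop.comp (tendsto_atTop_add_const_right _ _ tendsto_natCast_atTop_atTop)
  filter_upwards [eventually_ge_atTop 3, eventually_ge_atTop m, hl.eventually_ge_atTop 1,
    hl.eventually_gt_atTop (192 * m / ε ^ 3)] with r hr hrm hx1 hx2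
  set x := Real.log ((r : ℝ) + 1) with hx
  have hE : 4 * m * x ^ 2 < Real.exp (ε * x / 2) := by
    have a1 := Real.pow_div_factorial_le_exp (ε * x / 2) (by positivity) 3
    rw [div_lt_iff₀ (by positivity)] at hx2
    have a2 := mul_lt_mul_of_pos_right hx2 (by positivity : 0 < x ^ 2)
    have a3 : (ε * x / 2) ^ 3 / (Nat.factorial 3 : ℕ) = x * ε ^ 3 * x ^ 2 / 48 := by
      simp [Nat.factorial]; ring
    linarith
  set s := ⌊(1 - ε) * m * x⌋₊ with hs
  have h0 : 0 ≤ (1 - ε) * m * x := by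
    have : 0 < 1 - ε := by linarith
    positivity
  obtain ⟨h1, h2⟩ := numer (s := s) hε hε1 hm1 hr (by omega) hx hx1 hE (Nat.floor_le h0)
  have hc : Fintype.card (Fin m × Fin (r + 1)) = m * (r + 1) := by simp
  have h3 : 2 * (r + 1) ≤ m * (r + 1) := Nat.mul_le_mul_right _ hm2
  obtain ⟨f, hf, hS⟩ := family (V := Fin m × Fin (r + 1)) (k := r + 1) (s := s) (t := r - 1)
    (by rw [hc]; omega) (by rw [hc]; omega) (by rw [hc]; exact h2)
  obtain ⟨y, hy, hy'⟩ := construct hm' (by omega) (by omega) f hf hS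
  refine ⟨y, hy, le_trans ?_ hy'⟩
  have a1 : (1 - ε) * m * x ≤ s + 1 := (Nat.lt_floor_add_one _).le
  have a2 : Real.log r ≤ x := Real.log_le_log (by exact_mod_cast (by omega : 0 < r)) (by linarith)
  rw [le_div_iff₀ hm0]
  have := mul_le_mul_of_nonneg_left a2 (mul_nonneg (by linarith : 0 ≤ 1 - ε) hm0.le)
  linarith

end Pool.Agent.H.MP_9a58dc_co
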