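import Mathlib

set_option autoImplicit false

namespace Pool.Agent.H.MP_9a58dc_co

/-- `S` is (out-)dominating in the digraph with arc relation `A`. -/
def Dom {V : Type} (A : V → V → Prop) (S : Finset V) : Prop := ∀ v, v ∉ S → ∃ u ∈ S, A u v

/-- domination number. -/
noncomputable def gam {V : Type} (A : V → V → Prop) : ℕ :=
  sInf {n | ∃ S : Finset V, Dom A S ∧ S.card = n}

/-- loopless, all out- and in-degrees `r`, strongly connected. -/
def RegStrong {V : Type} (A : V → V → Prop) (r : ℕ) : Prop :=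
  (∀ v, ¬ A v v) ∧ (∀ v, {w | A v w}.ncard = r) ∧ (∀ v, {u | A u v}.ncard = r) ∧
    ∀ u v, Relation.ReflTransGen A u v

/-- the ratios `γ(D⁻)/γ(D)` over `r`-regular strongly connected finite digraphs. -/
def ratios (r : ℕ) : Set ℝ :=
  {x | ∃ (V : Type) (_ : Fintype V) (_ : Nonempty V) (A : V → V → Prop),
    RegStrong A r ∧ x = (gam (fun u v => A v u) : ℝ) / (gam A : ℝ)}

noncomputable def rho (r : ℕ) : ℝ := sSup (ratios r)

end Pool.Agent.H.MP_9a58dc_co
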